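import Pool.Agent.P.MP_78ae2c_lc.Main
import Pool.Agent.P.MP_78ae2c_lc.Defs

namespace Pool.Agent.Results.MP_78ae2c_lc.NoClosed

open Pool.Agent.P.MP_78ae2c_lc Ordinal

theorem result (α : Ordinal.{0}) (hα : ω_ 1 * 2 + 1 ≤ α) : ¬ ClosedRainbowArrow α := by
  classical
  obtain ⟨F, h1, h2, h3, h4⟩ := exists_colouring
  have hp : ∀ X, ∀ s ∈ pairs X, ∃ a b, a < b ∧ a ∈ X ∧ b ∈ X ∧ s = {a, b} := by
    rintro X s ⟨hs, hX⟩
    obtain ⟨a, b, hab, rfl⟩ := Finset.card_eq_two.1 hs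
    have ha : a ∈ X := hX (by simp)
    have hb : b ∈ X := hX (by simp)
    rcases hab.lt_or_gt with h | h
    · exact ⟨a, b, h, ha, hb, rfl⟩
    · exact ⟨b, a, h, hb, ha, Finset.pair_comm a b⟩
  have hq : ∀ X a b, a < b → a ∈ X → b ∈ X → ({a, b} : Finset Ordinal.{0}) ∈ pairs X := by
    intro X a b h ha hb
    refine ⟨Finset.card_pair h.ne, ?_⟩
    simp [Set.insert_subset_iff, ha, hb]
  let f : Finset Ordinal.{0} → Ordinal.{0} := fun s => F (sInf (s : Set Ordinal.{0})) (sSup s)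
  have hf : ∀ a b, a < b → f {a, b} = F a b := by
    intro a b h
    simp only [f, Finset.coe_insert, Finset.coe_singleton, csInf_pair, csSup_pair,
      inf_of_le_left h.le, sup_of_le_right h.le]
  have hm : ∀ a b : Ordinal.{0}, a < b → ({a, b} : Finset Ordinal.{0}).max = (b : Ordinal.{0}) := by
    intro a b h
    rw [Finset.max_insert, Finset.max_singleton, max_eq_right (WithBot.coe_le_coe.2 h.le)]
  intro H
  refine absurd (H f (fun s _ => h1 _ _) ?_ ?_) ?_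
  rotate_left 2
  · rintro ⟨A, hA, hcl, hinj, he⟩
    obtain ⟨a, ha, a', ha', b, hb, l1, l2, e⟩ := h4 α hα A hA hcl he
    have := hinj (hq A a b (l1.trans l2) ha hb) (hq A a' b l2 ha' hb)
      (by rw [hf _ _ (l1.trans l2), hf _ _ l2, e])
    have h5 : a ∈ ({a', b} : Finset Ordinal.{0}) := this ▸ by simp
    simp only [Finset.mem_insert, Finset.mem_singleton] at h5
    rcases h5 with h | h
    · exact l1.ne h
    · exact (l1.trans l2).ne h
  · intro s hs t ht e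
    obtain ⟨a, b, l, -, hb, rfl⟩ := hp _ s hs
    obtain ⟨a', b', l', -, hb', rfl⟩ := hp _ t ht
    rw [hf _ _ l, hf _ _ l'] at e
    rw [hm _ _ l, hm _ _ l', h2 _ _ _ _ l hb l' hb' e]
  · intro ξ _
    obtain ⟨u, v, huv⟩ := h3 ξ
    rcases Set.eq_empty_or_nonempty {s ∈ pairs (Set.Iio (ω_ 2)) | f s = ξ} with h | ⟨s₀, hs₀, e₀⟩
    · rw [h]; simp
    · obtain ⟨a₀, b₀, l₀, -, hb₀, rfl⟩ := hp _ s₀ hs₀
      rw [hf _ _ l₀] at e₀
      refine le_trans (Set.encard_le_encard (t := {{u, b₀}, {v, b₀}}) ?_) ?_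
      · rintro s ⟨hs, e⟩
        obtain ⟨a, b, l, -, hb, rfl⟩ := hp _ s hs
        rw [hf _ _ l] at e
        obtain rfl := h2 _ _ _ _ l hb l₀ hb₀ (e.trans e₀.symm)
        rcases huv a b l hb e with rfl | rfl <;> simp
      · refine (Set.encard_insert_le _ _).trans ?_
        rw [Set.encard_singleton, one_add_one_eq_two]

end Pool.Agent.Results.MP_78ae2c_lc.NoClosed
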