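import Pool.Agent.P.MP_78ae2c_lc.MM6

namespace Pool.Agent.Results.MP_78ae2c_lc.SharpUnderMM

open Pool.Agent.P.MP_78ae2c_lc Ordinal

theorem result (hMM : MartinsMaximum) (α : Ordinal.{0}) (hα : α ≤ ω_ 1 * 2)
    (f : Finset Ordinal.{0} → Ordinal.{0})
    (hn : ∀ s ∈ pairs (Set.Iio (ω_ 2)), ∀ t ∈ pairs (Set.Iio (ω_ 2)), f s = f t → s.max = t.max)
    (hf : ∀ ξ, {s ∈ pairs (Set.Iio (ω_ 2)) | f s = ξ}.Finite) :
    ∃ A ⊆ Set.Iio (ω_ 2), (∀ γ < sSup A, sSup (A ∩ Set.Iio γ) = γ → γ ∈ A) ∧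
      Set.InjOn f (pairs A) ∧ Nonempty (Set.Iio α ≃o A) := by
  classical
  have hq : ∀ X a b, a < b → a ∈ X → b ∈ X → ({a, b} : Finset Ordinal.{0}) ∈ pairs X := by
    intro X a b h ha hb
    refine ⟨Finset.card_pair h.ne, ?_⟩
    simp [Set.insert_subset_iff, ha, hb]
  have hp : ∀ X, ∀ s ∈ pairs X, ∃ a b, a < b ∧ a ∈ X ∧ b ∈ X ∧ s = {a, b} := by
    rintro X s ⟨hs, hX⟩
    obtain ⟨a, b, hab, rfl⟩ := Finset.card_eq_two.1 hs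
    have ha : a ∈ X := hX (by simp)
    have hb : b ∈ X := hX (by simp)
    rcases hab.lt_or_gt with h | h
    · exact ⟨a, b, h, ha, hb, rfl⟩
    · exact ⟨b, a, h, hb, ha, Finset.pair_comm a b⟩
  have hm : ∀ a b : Ordinal.{0}, a < b → ({a, b} : Finset Ordinal.{0}).max = (b : Ordinal.{0}) := by
    intro a b h
    rw [Finset.max_insert, Finset.max_singleton, max_eq_right (WithBot.coe_le_coe.2 h.le)]
  obtain ⟨ψ, h1, h2, h3⟩ := MMx.main_mm hMM (F := fun y b => f {y.1, b.1}) (fun b col => by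
    refine Set.Finite.of_finite_image (f := fun y : MMx.W2 => ({y.1, b.1} : Finset Ordinal.{0}))
      ((hf col).subset ?_) ?_
    · rintro _ ⟨y, ⟨l, e⟩, rfl⟩
      exact ⟨hq _ _ _ l y.2 b.2, e⟩
    · intro x hx y _ e
      have e' : ({x.1, b.1} : Finset Ordinal.{0}) = {y.1, b.1} := e
      have h5 : x.1 ∈ ({y.1, b.1} : Finset Ordinal.{0}) := e' ▸ by simp
      simp only [Finset.mem_insert, Finset.mem_singleton] at h5
      exact h5.elim Subtype.ext fun h => absurd (Subtype.ext h) hx.1.ne) α hα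
  have hA : Set.range (Subtype.val ∘ ψ) ⊆ Set.Iio (ω_ 2) := by
    rintro _ ⟨x, rfl⟩
    exact (ψ x).2
  refine ⟨Set.range (Subtype.val ∘ ψ), hA, fun γ l e => ?_, fun s hs t ht e => ?_,
    ⟨((Subtype.strictMono_coe _).comp h1).orderIso⟩⟩
  · obtain ⟨_, ⟨u, rfl⟩, lu⟩ := (lt_csSup_iff' ⟨ω_ 2, fun x hx => le_of_lt (hA hx)⟩).1 l
    obtain ⟨x, hx⟩ := h3 ⟨γ, lt_trans lu (ψ u).2⟩ ⟨_, ⟨u, rfl⟩, lu⟩ fun x hx => by
      obtain ⟨_, ⟨⟨y, rfl⟩, l1⟩, l2⟩ := (lt_csSup_iff' ⟨γ, fun x hx => le_of_lt hx.2⟩).1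
        (e.symm ▸ hx : x.1 < sSup (Set.range (Subtype.val ∘ ψ) ∩ Set.Iio γ))
      exact ⟨_, ⟨y, rfl⟩, l2, l1⟩
    exact ⟨x, congrArg Subtype.val hx⟩
  · obtain ⟨_, _, l, ⟨a, rfl⟩, ⟨b, rfl⟩, rfl⟩ := hp _ s hs
    obtain ⟨_, _, l', ⟨a', rfl⟩, ⟨b', rfl⟩, rfl⟩ := hp _ t ht
    have h4 := hn _ (hq _ _ _ l (ψ a).2 (ψ b).2) _ (hq _ _ _ l' (ψ a').2 (ψ b').2) e
    rw [hm _ _ l, hm _ _ l'] at h4
    obtain rfl : b = b' := h1.injective (Subtype.ext (WithBot.coe_injective h4))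
    have h5 := h2 _ ⟨b, rfl⟩ _ ⟨a, rfl⟩ _ ⟨a', rfl⟩ l l' e
    simp only [Function.comp, h5]

end Pool.Agent.Results.MP_78ae2c_lc.SharpUnderMM
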